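import Mathlib
import Pool.Agent.TH327.CKDiam1

/-!
# The Banach-Mazur diameter of `C(K)` is infinite for every Kunen compact `K`

More generally this holds for every infinite compact Hausdorff space `K`.  The space `C(K)` has
equivalent norms for which it contains a norm one complemented copy of `ℓ₂ⁿ`, whereas in the
supremum norm the projection constants of copies of `ℓ₂ⁿ` grow like `√n`.
-/

set_option autoImplicit false

namespace Pool.Agent.Results.MP_d900b7_an.KunenDiameter

open scoped ENNReal NNReal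
open Pool.Agent.TH327.CKDiam

universe u

/-- The Banach-Mazur distance `d(Y, Z) = inf ‖T‖ ‖T⁻¹‖`, over all linear isomorphisms `T` of `Y`
onto `Z`, as an element of `[0, ∞]`. -/
noncomputable def bmDist (Y Z : Type u) [NormedAddCommGroup Y] [NormedSpace ℝ Y]
    [NormedAddCommGroup Z] [NormedSpace ℝ Z] : ℝ≥0∞ :=
  ⨅ T : Y ≃L[ℝ] Z, ENNReal.ofReal (‖(T : Y →L[ℝ] Z)‖ * ‖(T.symm : Z →L[ℝ] Y)‖)

/-- `D(X) = sup d(Y, Z)`, over all Banach spaces `Y` and `Z` isomorphic to `X`, as an element of
`[0, ∞]`. -/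
noncomputable def bmDiam (X : Type u) [NormedAddCommGroup X] [NormedSpace ℝ X] : ℝ≥0∞ :=
  ⨆ (Y : Type u) (_ : NormedAddCommGroup Y) (_ : NormedSpace ℝ Y) (_ : CompleteSpace Y)
    (Z : Type u) (_ : NormedAddCommGroup Z) (_ : NormedSpace ℝ Z) (_ : CompleteSpace Z)
    (_ : Nonempty (X ≃L[ℝ] Y)) (_ : Nonempty (X ≃L[ℝ] Z)), bmDist Y Z

/-- `K` is a Kunen compact: scattered, not metrizable, the dual of `C(K)` with its weak* topology
is hereditarily separable, and `C(K)` with its weak topology is hereditarily Lindelöf. -/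
def IsKunenCompact (K : Type u) [TopologicalSpace K] [CompactSpace K] [T2Space K] : Prop :=
  (∀ L : Set K, IsClosed L → L.Nonempty → ∃ x ∈ L, ∃ U : Set K, IsOpen U ∧ U ∩ L = {x}) ∧
  ¬ TopologicalSpace.MetrizableSpace K ∧
  (∀ S : Set (WeakDual ℝ C(K, ℝ)), TopologicalSpace.SeparableSpace S) ∧
  HereditarilyLindelofSpace (WeakSpace ℝ C(K, ℝ))

/-- Every infinite-dimensional space contains complemented copies of all finite-dimensional
spaces. -/
theorem exists_copy {X : Type*} [NormedAddCommGroup X] [NormedSpace ℝ X]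
    (hX : ¬ FiniteDimensional ℝ X) (E : Type*) [NormedAddCommGroup E]
    [NormedSpace ℝ E] [FiniteDimensional ℝ E] :
    ∃ (a : E →L[ℝ] X) (b : X →L[ℝ] E), ∀ e, b (a e) = e := by
  classical
  have hrank : (Module.finrank ℝ E : Cardinal) ≤ Module.rank ℝ X := by
    have h1 : Cardinal.aleph0 ≤ Module.rank ℝ X := by
      by_contra hcon
      exact hX (Module.rank_lt_aleph0_iff.mp (not_le.mp hcon))
    exact (Cardinal.natCast_lt_aleph0.le).trans h1
  obtain ⟨s, hs, hli⟩ := exists_finset_linearIndependent_of_le_rank hrank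
  let eq : Fin (Module.finrank ℝ E) ≃ s := Fintype.equivOfCardEq (by simp [hs])
  let bE := Module.finBasis ℝ E
  let a₀ : E →ₗ[ℝ] X := bE.constr ℝ (fun i => ((eq i : s) : X))
  have ha₀ : Function.Injective a₀ := by
    have hli' : LinearIndependent ℝ (fun i => a₀ (bE i)) := by
      have h1 : (fun i => a₀ (bE i)) = (fun x : s => (x : X)) ∘ eq := by
        ext i
        simp [a₀]
      rw [h1]
      exact LinearIndependent.comp hli eq eq.injective
    rw [← LinearMap.ker_eq_bot]
    rw [LinearMap.ker_eq_bot']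
    intro e he
    have h2 : a₀ e = ∑ i, bE.repr e i • a₀ (bE i) := by
      calc a₀ e = a₀ (∑ i, bE.repr e i • bE i) := by rw [bE.sum_repr]
        _ = ∑ i, bE.repr e i • a₀ (bE i) := by
          rw [map_sum]
          simp only [map_smul]
    rw [h2] at he
    have h3 := Fintype.linearIndependent_iff.mp hli' (fun i => bE.repr e i) he
    rw [← bE.sum_repr e]
    simp [h3]
  let a : E →L[ℝ] X := LinearMap.toContinuousLinearMap a₀
  let F : Submodule ℝ X := LinearMap.range a₀
  have hF : FiniteDimensional ℝ F := inferInstance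
  obtain ⟨P, hP⟩ := Submodule.ClosedComplemented.of_finiteDimensional F
  let inv : F →ₗ[ℝ] E := (LinearEquiv.ofInjective a₀ ha₀).symm
  let b : X →L[ℝ] E := (LinearMap.toContinuousLinearMap inv).comp P
  refine ⟨a, b, fun e => ?_⟩
  have h1 : P (a e) = ⟨a₀ e, LinearMap.mem_range_self a₀ e⟩ :=
    hP ⟨a₀ e, LinearMap.mem_range_self a₀ e⟩
  change inv (P (a e)) = e
  rw [h1]
  exact (LinearEquiv.ofInjective a₀ ha₀).symm_apply_apply e

/-- `C(K)` is infinite-dimensional for infinite `K`. -/
theorem infinite_dim {K : Type*} [TopologicalSpace K] [CompactSpace K] [T2Space K] [Infinite K] :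
    ¬ FiniteDimensional ℝ C(K, ℝ) := by
  classical
  intro hfin
  set n := Module.finrank ℝ C(K, ℝ) with hn
  let t : Fin (n + 1) → K := fun i => Infinite.natEmbedding K i
  have ht : Function.Injective t := fun i j h => by
    apply Fin.ext
    exact (Infinite.natEmbedding K).injective h
  have hf : ∀ i, ∃ f : C(K, ℝ), f (t i) = 1 ∧ ∀ j, j ≠ i → f (t j) = 0 := by
    intro i
    have hc1 : IsClosed (t '' {j | j ≠ i}) := (Set.toFinite _).isClosed
    have hc2 : IsClosed ({t i} : Set K) := isClosed_singleton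
    obtain ⟨f, hf0, hf1, -⟩ := exists_continuous_zero_one_of_isClosed hc1 hc2 (by
      rw [Set.disjoint_singleton_right]
      rintro ⟨j, hj, hji⟩
      exact hj (ht hji))
    exact ⟨f, hf1 (Set.mem_singleton _), fun j hj => hf0 ⟨j, hj, rfl⟩⟩
  choose f hf1 hf0 using hf
  have hli : LinearIndependent ℝ f := by
    rw [Fintype.linearIndependent_iff]
    intro g hg i
    have h1 : (∑ j, g j • f j) (t i) = 0 := by rw [hg]; rfl
    rw [ContinuousMap.sum_apply, Finset.sum_eq_single i] at h1
    · simpa [hf1] using h1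
    · intro j _ hj
      rw [ContinuousMap.smul_apply, hf0 j i hj.symm, smul_zero]
    · simp
  have h2 := hli.fintype_card_le_finrank
  rw [Fintype.card_fin, ← hn] at h2
  omega

/-- an isomorphism onto a product gives a factorization of the identity of the first factor -/
theorem factor {X E N : Type*} [NormedAddCommGroup X] [NormedSpace ℝ X]
    [NormedAddCommGroup E] [NormedSpace ℝ E] [NormedAddCommGroup N] [NormedSpace ℝ N]
    (T : X ≃L[ℝ] E × N) : ∃ (a : E →L[ℝ] X) (b : X →L[ℝ] E), (∀ x, b (a x) = x) ∧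
      ‖a‖ * ‖b‖ ≤ ‖(T : X →L[ℝ] E × N)‖ * ‖(T.symm : E × N →L[ℝ] X)‖ := by
  let a' : E →L[ℝ] X := (T.symm : E × N →L[ℝ] X).comp (ContinuousLinearMap.inl ℝ E N)
  let b' : X →L[ℝ] E := (ContinuousLinearMap.fst ℝ E N).comp (T : X →L[ℝ] E × N)
  refine ⟨a', b', fun x => ?_, ?_⟩
  · change (T (T.symm (x, 0))).1 = x
    rw [T.apply_symm_apply]
  have ha' : ‖a'‖ ≤ ‖(T.symm : E × N →L[ℝ] X)‖ := by
    refine (ContinuousLinearMap.opNorm_comp_le _ _).trans ?_
    refine mul_le_of_le_one_right (ContinuousLinearMap.opNorm_nonneg _) ?_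
    refine ContinuousLinearMap.opNorm_le_bound _ zero_le_one fun x => ?_
    rw [one_mul, ContinuousLinearMap.inl_apply, Prod.norm_def]
    simp
  have hb' : ‖b'‖ ≤ ‖(T : X →L[ℝ] E × N)‖ := by
    refine (ContinuousLinearMap.opNorm_comp_le _ _).trans ?_
    refine mul_le_of_le_one_left (ContinuousLinearMap.opNorm_nonneg _) ?_
    exact ContinuousLinearMap.norm_fst_le ℝ E N
  rw [mul_comm ‖(T : X →L[ℝ] E × N)‖]
  exact mul_le_mul ha' hb' (ContinuousLinearMap.opNorm_nonneg _) (ContinuousLinearMap.opNorm_nonneg _)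

/-- a splitting of a space -/
theorem split {X E : Type*} [NormedAddCommGroup X] [NormedSpace ℝ X]
    [NormedAddCommGroup E] [NormedSpace ℝ E] (a : E →L[ℝ] X) (b : X →L[ℝ] E)
    (hab : ∀ e, b (a e) = e) :
    Nonempty (X ≃L[ℝ] E × (LinearMap.ker (b : X →ₗ[ℝ] E))) := by
  let N : Submodule ℝ X := LinearMap.ker (b : X →ₗ[ℝ] E)
  have hmem : ∀ x, x - a (b x) ∈ N := fun x => by
    change b (x - a (b x)) = 0
    rw [map_sub, hab, sub_self]
  let f : X →L[ℝ] E × N := b.prod
    ((ContinuousLinearMap.id ℝ X - a.comp b).codRestrict N hmem)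
  let g : E × N →L[ℝ] X := a.comp (ContinuousLinearMap.fst ℝ E N) +
    N.subtypeL.comp (ContinuousLinearMap.snd ℝ E N)
  have hf : ∀ x, f x = (b x, ⟨x - a (b x), hmem x⟩) := fun x => rfl
  have hg : ∀ z, g z = a z.1 + (z.2 : X) := fun z => rfl
  exact ⟨ContinuousLinearEquiv.equivOfInverse f g
    (fun x => by
      rw [hf, hg]
      simp) (fun z => by
      rw [hg, hf]
      have h1 : b (z.2 : X) = 0 := z.2.2
      have h2 : b (a z.1 + (z.2 : X)) = z.1 := by rw [map_add, hab, h1, add_zero]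
      apply Prod.ext
      · exact h2
      · apply Subtype.ext
        simp only [h2]
        abel)⟩

/-- the distance to a product is at most the diameter -/
theorem le_diam {X E N : Type u} [NormedAddCommGroup X] [NormedSpace ℝ X] [CompleteSpace X]
    [NormedAddCommGroup E] [NormedSpace ℝ E] [CompleteSpace E]
    [NormedAddCommGroup N] [NormedSpace ℝ N] [CompleteSpace N] (h : Nonempty (X ≃L[ℝ] E × N)) :
    bmDist X (E × N) ≤ bmDiam X := by
  unfold bmDiam
  exact le_iSup_of_le X <| le_iSup_of_le inferInstance <| le_iSup_of_le inferInstance <|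
    le_iSup_of_le inferInstance <|
    le_iSup_of_le (E × N) <| le_iSup_of_le inferInstance <| le_iSup_of_le inferInstance <|
    le_iSup_of_le inferInstance <|
    le_iSup_of_le ⟨ContinuousLinearEquiv.refl ℝ _⟩ <| le_iSup_of_le h le_rfl

/-- lower bound for the distance to a product -/
theorem dist_ge {X E N : Type u} [NormedAddCommGroup X] [NormedSpace ℝ X]
    [NormedAddCommGroup E] [NormedSpace ℝ E] [NormedAddCommGroup N] [NormedSpace ℝ N] (M : ℝ≥0)
    (h : ∀ (a : E →L[ℝ] X) (b : X →L[ℝ] E), (∀ x, b (a x) = x) → (M : ℝ) ≤ ‖a‖ * ‖b‖) :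
    (M : ℝ≥0∞) ≤ bmDist X (E × N) := by
  apply le_iInf
  intro T
  rw [← ENNReal.ofReal_coe_nnreal]
  apply ENNReal.ofReal_le_ofReal
  obtain ⟨a, b, hab, hle⟩ := factor T
  exact (h a b hab).trans hle

theorem diam_infinite (K : Type u) [TopologicalSpace K] [CompactSpace K] [T2Space K] [Infinite K] :
    bmDiam C(K, ℝ) = ∞ := by
  apply ENNReal.eq_top_of_forall_nnreal_le
  intro M
  obtain ⟨n, hn⟩ := exists_nat_ge ((9 / 4 * (M : ℝ)) ^ 2)
  obtain ⟨a, b, hab⟩ := exists_copy (infinite_dim (K := K)) (En.{u} n)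
  have hN : IsClosed (LinearMap.ker (b : C(K, ℝ) →ₗ[ℝ] En.{u} n) : Set C(K, ℝ)) := b.isClosed_ker
  have hcN : CompleteSpace (LinearMap.ker (b : C(K, ℝ) →ₗ[ℝ] En.{u} n)) := hN.completeSpace_coe
  refine (dist_ge M ?_).trans (le_diam (split a b hab))
  intro a' b' hab'
  have h1 := main_ineq n a' b' hab'
  have h2 : 9 / 4 * (M : ℝ) ≤ Real.sqrt n := Real.le_sqrt_of_sq_le hn
  linarith

/-- **Theorem.** Let `K` be a compact Hausdorff space.  If `K` is a Kunen compact then
`D(C(K)) = ∞`.  More generally `D(C(K)) = ∞` as soon as `K` is infinite. -/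
theorem result (K : Type u) [TopologicalSpace K] [CompactSpace K] [T2Space K] :
    (IsKunenCompact K → bmDiam C(K, ℝ) = ∞) ∧ (Infinite K → bmDiam C(K, ℝ) = ∞) := by
  refine ⟨fun hK => ?_, fun hK => diam_infinite K⟩
  have hinf : Infinite K := by
    by_contra hcon
    rw [not_infinite_iff_finite] at hcon
    exact hK.2.1 inferInstance
  exact diam_infinite K

end Pool.Agent.Results.MP_d900b7_an.KunenDiameter
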